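import Mathlib

set_option autoImplicit false

namespace Pool.Agent.Results.MP_666a49_co.LdimBoolean

/-- A partial linear extension (ple) of a poset `α`: a (strict) linear order `lt` on a finite
subset `carrier` of `α` such that, for `x, y` in `carrier`, `x < y` in `α` implies `lt x y`.
Only the values of `lt` on `carrier` matter. -/
structure PLE (α : Type*) [PartialOrder α] where
  /-- the ground set of the ple -/
  carrier : Finset α
  /-- the strict linear order on `carrier` -/
  lt : α → α → Prop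
  irrefl : ∀ x ∈ carrier, ¬ lt x x
  trans : ∀ x ∈ carrier, ∀ y ∈ carrier, ∀ z ∈ carrier, lt x y → lt y z → lt x z
  total : ∀ x ∈ carrier, ∀ y ∈ carrier, x ≠ y → lt x y ∨ lt y x
  extends_lt : ∀ x ∈ carrier, ∀ y ∈ carrier, x < y → lt x y

/-- A finite family `L` of ples is a local realizer: every pair `x < y` lies together in some
`L i` (with `x` before `y`), and for every two incomparable elements `x, y` (this is stated for
the ordered pair, hence for both orders) some `L i` contains both and has `x` before `y`. -/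
def IsLocalRealizer {α : Type*} [PartialOrder α] {m : ℕ} (L : Fin m → PLE α) : Prop :=
  (∀ x y : α, x < y → ∃ i, x ∈ (L i).carrier ∧ y ∈ (L i).carrier ∧ (L i).lt x y) ∧
  (∀ x y : α, ¬ x ≤ y → ¬ y ≤ x → ∃ i, x ∈ (L i).carrier ∧ y ∈ (L i).carrier ∧ (L i).lt x y)

open scoped Classical in
/-- `α` has a local realizer in which every element lies in at most `k` ples. -/
def HasLocalRealizer (α : Type*) [PartialOrder α] (k : ℕ) : Prop :=
  ∃ (m : ℕ) (L : Fin m → PLE α), IsLocalRealizer L ∧
    ∀ x : α, (Finset.univ.filter (fun i => x ∈ (L i).carrier)).card ≤ k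

/-- The local dimension of `α`: the least `k` such that `α` has a local realizer in which every
element lies in at most `k` ples. -/
noncomputable def ldim (α : Type*) [PartialOrder α] : ℕ := sInf {k | HasLocalRealizer α k}

/-! ### General constructions -/

/-- transport a ple along an order isomorphism -/
def PLE.map {α β : Type*} [PartialOrder α] [PartialOrder β] (e : α ≃o β) (L : PLE α) : PLE β where
  carrier := L.carrier.map e.toEquiv.toEmbedding
  lt x y := L.lt (e.symm x) (e.symm y)
  irrefl := by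
    intro x hx
    rw [Finset.mem_map_equiv] at hx
    exact L.irrefl _ hx
  trans := by
    intro x hx y hy z hz
    rw [Finset.mem_map_equiv] at hx hy hz
    exact L.trans _ hx _ hy _ hz
  total := by
    intro x hx y hy hxy
    rw [Finset.mem_map_equiv] at hx hy
    exact L.total _ hx _ hy (fun h => hxy (e.symm.injective h))
  extends_lt := by
    intro x hx y hy hxy
    rw [Finset.mem_map_equiv] at hx hy
    exact L.extends_lt _ hx _ hy (e.symm.lt_iff_lt.2 hxy)

lemma hasLocalRealizer_map {α β : Type*} [PartialOrder α] [PartialOrder β] (e : α ≃o β) {k : ℕ}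
    (h : HasLocalRealizer α k) : HasLocalRealizer β k := by
  classical
  obtain ⟨m, L, ⟨h1, h2⟩, h3⟩ := h
  refine ⟨m, fun i => (L i).map e, ⟨?_, ?_⟩, ?_⟩
  · intro x y hxy
    obtain ⟨i, hi1, hi2, hi3⟩ := h1 (e.symm x) (e.symm y) (e.symm.lt_iff_lt.2 hxy)
    exact ⟨i, Finset.mem_map_equiv.2 hi1, Finset.mem_map_equiv.2 hi2, hi3⟩
  · intro x y hxy hyx
    obtain ⟨i, hi1, hi2, hi3⟩ := h2 (e.symm x) (e.symm y)
      (fun h => hxy (e.symm.le_iff_le.1 h)) (fun h => hyx (e.symm.le_iff_le.1 h))
    exact ⟨i, Finset.mem_map_equiv.2 hi1, Finset.mem_map_equiv.2 hi2, hi3⟩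
  · intro x
    have hmem : ∀ i, x ∈ ((L i).map e).carrier ↔ e.symm x ∈ (L i).carrier := by
      intro i
      exact Finset.mem_map_equiv
    refine le_trans (le_of_eq ?_) (h3 (e.symm x))
    exact congrArg Finset.card (Finset.filter_congr (fun i _ => hmem i))

/-- Lexicographic ple on `α × β`: a ple of `α`, refined by a linear extension of `β`. -/
noncomputable def PLE.lexLeft {α : Type*} (β : Type*) [PartialOrder α] [PartialOrder β]
    [Fintype β] (L : PLE α) : PLE (α × β) where
  carrier := L.carrier ×ˢ Finset.univ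
  lt p q := L.lt p.1 q.1 ∨ (p.1 = q.1 ∧ toLinearExtension p.2 < toLinearExtension q.2)
  irrefl := by
    rintro ⟨x, b⟩ hx
    simp only [Finset.mem_product, Finset.mem_univ, and_true] at hx
    rintro (h | h)
    · exact L.irrefl x hx h
    · exact lt_irrefl _ h.2
  trans := by
    rintro ⟨x, a⟩ hx ⟨y, b⟩ hy ⟨z, c⟩ hz
    simp only [Finset.mem_product, Finset.mem_univ, and_true] at hx hy hz
    rintro (h | ⟨h, h'⟩) (g | ⟨g, g'⟩)
    · exact Or.inl (L.trans x hx y hy z hz h g)
    · simp only at g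
      subst g
      exact Or.inl h
    · simp only at h
      subst h
      exact Or.inl g
    · simp only at h g
      subst h
      subst g
      exact Or.inr ⟨rfl, lt_trans h' g'⟩
  total := by
    rintro ⟨x, a⟩ hx ⟨y, b⟩ hy hxy
    simp only [Finset.mem_product, Finset.mem_univ, and_true] at hx hy
    by_cases h : x = y
    · subst h
      have hab : a ≠ b := fun h => hxy (by rw [h])
      have hab' : toLinearExtension a ≠ toLinearExtension b := fun h => hab h
      rcases lt_or_gt_of_ne hab' with h | h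
      · exact Or.inl (Or.inr ⟨rfl, h⟩)
      · exact Or.inr (Or.inr ⟨rfl, h⟩)
    · rcases L.total x hx y hy h with h | h
      · exact Or.inl (Or.inl h)
      · exact Or.inr (Or.inl h)
  extends_lt := by
    rintro ⟨x, a⟩ hx ⟨y, b⟩ hy hxy
    simp only [Finset.mem_product, Finset.mem_univ, and_true] at hx hy
    by_cases h : x = y
    · subst h
      refine Or.inr ⟨rfl, ?_⟩
      have hab : a < b := by
        rcases Prod.lt_iff.1 hxy with h | h
        · exact absurd h.1 (lt_irrefl _)
        · exact h.2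
      have h1 : toLinearExtension a ≤ toLinearExtension b := toLinearExtension.monotone hab.le
      exact lt_of_le_of_ne h1 (fun h => hab.ne h)
    · refine Or.inl (L.extends_lt x hx y hy ?_)
      exact lt_of_le_of_ne (Prod.le_def.1 hxy.le).1 h

lemma hasLocalRealizer_prod {α β : Type*} [PartialOrder α] [PartialOrder β] [Fintype α]
    [Fintype β] {a b : ℕ} (hα : HasLocalRealizer α a) (hβ : HasLocalRealizer β b) :
    HasLocalRealizer (α × β) (a + b) := by
  classical
  obtain ⟨m, L, ⟨h1, h2⟩, h3⟩ := hα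
  obtain ⟨m', M, ⟨g1, g2⟩, g3⟩ := hβ
  -- the two kinds of ples
  let F : Fin m → PLE (α × β) := fun i => (L i).lexLeft β
  let G : Fin m' → PLE (α × β) := fun j => ((M j).lexLeft α).map OrderIso.prodComm
  have hF : ∀ i (p : α × β), p ∈ (F i).carrier ↔ p.1 ∈ (L i).carrier := by
    intro i p
    simp [F, PLE.lexLeft]
  have hG : ∀ j (p : α × β), p ∈ (G j).carrier ↔ p.2 ∈ (M j).carrier := by
    intro j p
    simp [G, PLE.lexLeft, PLE.map, OrderIso.prodComm]
  have hFlt : ∀ i (p q : α × β), (L i).lt p.1 q.1 → (F i).lt p q := by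
    intro i p q h
    exact Or.inl h
  have hGlt : ∀ j (p q : α × β), (M j).lt p.2 q.2 → (G j).lt p q := by
    intro j p q h
    exact Or.inl h
  have key : ∀ p q : α × β, p ≠ q → ¬ q ≤ p → 
      (∃ i, p ∈ (F i).carrier ∧ q ∈ (F i).carrier ∧ (F i).lt p q) ∨
      (∃ j, p ∈ (G j).carrier ∧ q ∈ (G j).carrier ∧ (G j).lt p q) := by
    intro p q hpq hqp
    by_cases hx : q.1 ≤ p.1
    · -- then `¬ q.2 ≤ p.2`
      have hy : ¬ q.2 ≤ p.2 := fun h => hqp (Prod.le_def.2 ⟨hx, h⟩)
      right
      by_cases hle : p.2 ≤ q.2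
      · have hlt : p.2 < q.2 := lt_of_le_not_ge hle hy
        obtain ⟨j, hj1, hj2, hj3⟩ := g1 _ _ hlt
        exact ⟨j, (hG j p).2 hj1, (hG j q).2 hj2, hGlt j p q hj3⟩
      · obtain ⟨j, hj1, hj2, hj3⟩ := g2 _ _ hle hy
        exact ⟨j, (hG j p).2 hj1, (hG j q).2 hj2, hGlt j p q hj3⟩
    · left
      by_cases hle : p.1 ≤ q.1
      · have hlt : p.1 < q.1 := lt_of_le_not_ge hle hx
        obtain ⟨i, hi1, hi2, hi3⟩ := h1 _ _ hlt
        exact ⟨i, (hF i p).2 hi1, (hF i q).2 hi2, hFlt i p q hi3⟩
      · obtain ⟨i, hi1, hi2, hi3⟩ := h2 _ _ hle hx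
        exact ⟨i, (hF i p).2 hi1, (hF i q).2 hi2, hFlt i p q hi3⟩
  have key2 : ∀ p q : α × β, p ≠ q → ¬ q ≤ p →
      ∃ i, p ∈ (Fin.append F G i).carrier ∧ q ∈ (Fin.append F G i).carrier ∧
        (Fin.append F G i).lt p q := by
    intro p q hpq hqp
    rcases key p q hpq hqp with ⟨i, hi⟩ | ⟨j, hj⟩
    · refine ⟨Fin.castAdd m' i, ?_⟩
      rw [Fin.append_left]
      exact hi
    · refine ⟨Fin.natAdd m j, ?_⟩
      rw [Fin.append_right]
      exact hj
  refine ⟨m + m', Fin.append F G, ⟨?_, ?_⟩, ?_⟩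
  · intro p q hpq
    exact key2 p q hpq.ne (not_le_of_gt hpq)
  · intro p q hpq hqp
    exact key2 p q (fun h => hpq h.le) hqp
  · intro p
    rw [Finset.card_filter, Fin.sum_univ_add]
    simp only [Fin.append_left, Fin.append_right]
    have e1 : (∑ i : Fin m, if p ∈ (F i).carrier then 1 else 0) ≤ a := by
      rw [← Finset.card_filter]
      refine le_trans (le_of_eq ?_) (h3 p.1)
      congr 1
      ext i
      simp only [Finset.mem_filter, Finset.mem_univ, true_and]
      exact hF i p
    have e2 : (∑ j : Fin m', if p ∈ (G j).carrier then 1 else 0) ≤ b := by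
      rw [← Finset.card_filter]
      refine le_trans (le_of_eq ?_) (g3 p.2)
      congr 1
      ext j
      simp only [Finset.mem_filter, Finset.mem_univ, true_and]
      exact hG j p
    exact Nat.add_le_add e1 e2

/-! ### Lists -/

/-- the ple listing the elements of `l` in increasing order -/
def PLE.ofList {α : Type*} [PartialOrder α] [DecidableEq α] (l : List α)
    (h : ∀ x ∈ l, ∀ y ∈ l, x < y → l.idxOf x < l.idxOf y) : PLE α where
  carrier := l.toFinset
  lt x y := l.idxOf x < l.idxOf y
  irrefl := fun x _ => lt_irrefl _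
  trans := fun x _ y _ z _ h1 h2 => lt_trans h1 h2
  total := by
    intro x hx y hy hxy
    rw [List.mem_toFinset] at hx hy
    rcases lt_trichotomy (l.idxOf x) (l.idxOf y) with h | h | h
    · exact Or.inl h
    · exact absurd ((List.idxOf_inj hx).1 h) hxy
    · exact Or.inr h
  extends_lt := by
    intro x hx y hy hxy
    rw [List.mem_toFinset] at hx hy
    exact h x hx y hy hxy

/-- subsets of `{0,1,2,3}` coded by binary masks -/
def b (k : ℕ) : Finset (Fin 4) := Finset.univ.filter (fun i => k.testBit i.val = true)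

/-- first list -/
def l1 : List (Finset (Fin 4)) := [2, 10, 1, 3, 11, 4, 5, 6, 7, 12].map b
/-- second list -/
def l2 : List (Finset (Fin 4)) := [0, 1, 8, 9, 4, 12, 13, 2, 6, 10, 11, 14, 15].map b
/-- third list -/
def l3 : List (Finset (Fin 4)) := [0, 4, 6, 8, 12, 14, 1, 9, 5, 13, 3, 7, 15].map b
/-- fourth list -/
def l4 : List (Finset (Fin 4)) := [0, 5, 2, 3, 7, 8, 10, 14, 9, 11, 13, 15].map b

lemma h1 : ∀ x ∈ l1, ∀ y ∈ l1, x < y → l1.idxOf x < l1.idxOf y := by decide +kernel
lemma h2 : ∀ x ∈ l2, ∀ y ∈ l2, x < y → l2.idxOf x < l2.idxOf y := by decide +kernel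
lemma h3 : ∀ x ∈ l3, ∀ y ∈ l3, x < y → l3.idxOf x < l3.idxOf y := by decide +kernel
lemma h4 : ∀ x ∈ l4, ∀ y ∈ l4, x < y → l4.idxOf x < l4.idxOf y := by decide +kernel

/-- the four ples of `2^4` -/
def fam : Fin 4 → PLE (Finset (Fin 4)) :=
  ![PLE.ofList l1 h1, PLE.ofList l2 h2, PLE.ofList l3 h3, PLE.ofList l4 h4]

/-- `x` and `y` lie in the list `l` with `x` before `y` -/
def before (l : List (Finset (Fin 4))) (x y : Finset (Fin 4)) : Prop :=
  x ∈ l ∧ y ∈ l ∧ l.idxOf x < l.idxOf y

instance (l : List (Finset (Fin 4))) (x y : Finset (Fin 4)) : Decidable (before l x y) := by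
  unfold before
  infer_instance

lemma cover : ∀ x y : Finset (Fin 4), x ≠ y → ¬ y ⊆ x →
    before l1 x y ∨ before l2 x y ∨ before l3 x y ∨ before l4 x y := by
  decide +kernel

lemma mult : ∀ x : Finset (Fin 4), (if x ∈ l1 then 1 else 0) + (if x ∈ l2 then 1 else 0) +
    (if x ∈ l3 then 1 else 0) + (if x ∈ l4 then 1 else 0) ≤ 3 := by
  decide +kernel

lemma hasLocalRealizer_four : HasLocalRealizer (Finset (Fin 4)) 3 := by
  classical
  have key : ∀ x y : Finset (Fin 4), x ≠ y → ¬ y ≤ x →
      ∃ i, x ∈ (fam i).carrier ∧ y ∈ (fam i).carrier ∧ (fam i).lt x y := by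
    intro x y hxy hyx
    rcases cover x y hxy hyx with h | h | h | h
    · exact ⟨0, List.mem_toFinset.2 h.1, List.mem_toFinset.2 h.2.1, h.2.2⟩
    · exact ⟨1, List.mem_toFinset.2 h.1, List.mem_toFinset.2 h.2.1, h.2.2⟩
    · exact ⟨2, List.mem_toFinset.2 h.1, List.mem_toFinset.2 h.2.1, h.2.2⟩
    · exact ⟨3, List.mem_toFinset.2 h.1, List.mem_toFinset.2 h.2.1, h.2.2⟩
  refine ⟨4, fam, ⟨?_, ?_⟩, ?_⟩
  · intro x y h
    exact key x y h.ne (not_le_of_gt h)
  · intro x y h h'
    exact key x y (fun e => h e.le) h'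
  · intro x
    rw [Finset.card_filter, Fin.sum_univ_four]
    have e1 : x ∈ (fam 0).carrier ↔ x ∈ l1 := List.mem_toFinset
    have e2 : x ∈ (fam 1).carrier ↔ x ∈ l2 := List.mem_toFinset
    have e3 : x ∈ (fam 2).carrier ↔ x ∈ l3 := List.mem_toFinset
    have e4 : x ∈ (fam 3).carrier ↔ x ∈ l4 := List.mem_toFinset
    simp only [e1, e2, e3, e4]
    exact mult x

/-! ### Small cases and induction -/

lemma hasLocalRealizer_zero : HasLocalRealizer (Finset (Fin 0)) 0 := by
  refine ⟨0, Fin.elim0, ⟨?_, ?_⟩, ?_⟩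
  · intro x y h
    exact absurd (Subsingleton.elim x y) h.ne
  · intro x y h
    exact absurd (Subsingleton.elim x y).le h
  · intro x
    simp

lemma hasLocalRealizer_one : HasLocalRealizer (Finset (Fin 1)) 1 := by
  have h : ∀ x ∈ ([∅, {0}] : List (Finset (Fin 1))), ∀ y ∈ ([∅, {0}] : List (Finset (Fin 1))),
      x < y → ([∅, {0}] : List (Finset (Fin 1))).idxOf x
        < ([∅, {0}] : List (Finset (Fin 1))).idxOf y := by decide +kernel
  have hc : ∀ x y : Finset (Fin 1), x ≠ y → ¬ y ⊆ x →
      x ∈ ([∅, {0}] : List (Finset (Fin 1))) ∧ y ∈ ([∅, {0}] : List (Finset (Fin 1))) ∧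
      ([∅, {0}] : List (Finset (Fin 1))).idxOf x
        < ([∅, {0}] : List (Finset (Fin 1))).idxOf y := by decide +kernel
  refine ⟨1, fun _ => PLE.ofList _ h, ⟨?_, ?_⟩, ?_⟩
  · intro x y hxy
    obtain ⟨a1, a2, a3⟩ := hc x y hxy.ne (not_le_of_gt hxy)
    exact ⟨0, List.mem_toFinset.2 a1, List.mem_toFinset.2 a2, a3⟩
  · intro x y hxy hyx
    obtain ⟨a1, a2, a3⟩ := hc x y (fun e => hxy e.le) hyx
    exact ⟨0, List.mem_toFinset.2 a1, List.mem_toFinset.2 a2, a3⟩
  · intro x
    refine le_trans (Finset.card_le_univ _) ?_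
    simp

/-- the order isomorphism of finite power sets induced by a bijection -/
def finsetIso {α β : Type*} (e : α ≃ β) : Finset α ≃o Finset β where
  toEquiv := e.finsetCongr
  map_rel_iff' := by
    intro s t
    simp only [Equiv.finsetCongr_apply]
    exact Finset.map_subset_map

lemma hasLocalRealizer_add {n m a b : ℕ} (h : HasLocalRealizer (Finset (Fin n)) a)
    (h' : HasLocalRealizer (Finset (Fin m)) b) : HasLocalRealizer (Finset (Fin (n + m))) (a + b) :=
  hasLocalRealizer_map ((Finset.sumEquiv (α := Fin n) (β := Fin m)).symm.trans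
    (finsetIso finSumFinEquiv)) (hasLocalRealizer_prod h h')

lemma hasLocalRealizer_self (n : ℕ) : HasLocalRealizer (Finset (Fin n)) n := by
  induction n with
  | zero => exact hasLocalRealizer_zero
  | succ n ih => exact hasLocalRealizer_add ih hasLocalRealizer_one

lemma hasLocalRealizer_general (n : ℕ) : HasLocalRealizer (Finset (Fin n)) (n - n / 4) := by
  induction n using Nat.strong_induction_on with
  | _ n ih =>
    by_cases hn : n < 4
    · have : n / 4 = 0 := Nat.div_eq_of_lt hn
      rw [this, Nat.sub_zero]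
      exact hasLocalRealizer_self n
    · obtain ⟨k, rfl⟩ : ∃ k, n = k + 4 := ⟨n - 4, by omega⟩
      have h := hasLocalRealizer_add (ih k (by omega)) hasLocalRealizer_four
      have e : k - k / 4 + 3 = k + 4 - (k + 4) / 4 := by omega
      rw [e] at h
      exact h

/-- The local dimension of the Boolean lattice `2^n` (the finite subsets of `Fin n` ordered by
inclusion) is at most `n - ⌊n/4⌋` for every `n`; in particular `ldim (2^n) < n` for every
`n ≥ 4`. -/
theorem result : ∀ n : ℕ,
    HasLocalRealizer (Finset (Fin n)) (n - n / 4) ∧ ldim (Finset (Fin n)) ≤ n - n / 4 ∧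
      (4 ≤ n → ldim (Finset (Fin n)) < n) := by
  intro n
  have h := hasLocalRealizer_general n
  have h' : ldim (Finset (Fin n)) ≤ n - n / 4 := Nat.sInf_le h
  refine ⟨h, h', fun hn => ?_⟩
  omega

end Pool.Agent.Results.MP_666a49_co.LdimBoolean
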